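import Mathlib
import Pool.Agent.Lib.MP_6bc78b_nt.SW.Iface
import Pool.Agent.Lib.MP_6bc78b_nt.H11.Mellin

/-! Board sw_modules, module PER: Perron's formula with the kernel `1/(s(s+1))`. -/

set_option autoImplicit false

namespace Pool.Agent.Lib.MP_6bc78b_nt.SW

open Complex MeasureTheory Set Filter Topology
open Pool.Agent.Lib.MP_6bc78b_nt.H11 (hat hat_mellin hat_of_le hat_of_gt hat_eq_max hat_norm_int)

/-- the weighted sum as a function of `y = 1/x`. -/
noncomputable def perF (a : ℕ → ℂ) (y : ℝ) : ℂ :=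
  ∑ n ∈ Finset.Icc 1 ⌊1 / y⌋₊, a n * (1 - n * y)

lemma perF_eq_sum {a : ℕ → ℂ} (ha : a 0 = 0) {y : ℝ} (hy : 0 < y) {N : ℕ} (hN : 1 / y ≤ N) :
    perF a y =
      ∑ n ∈ Finset.range (N + 1), a n * ((max (1 - n * y) 0 : ℝ) : ℂ) := by
  unfold perF
  have hsub : Finset.Icc 1 ⌊1 / y⌋₊ ⊆ Finset.range (N + 1) := by
    intro n hn
    rw [Finset.mem_Icc] at hn
    rw [Finset.mem_range]
    have : ⌊1 / y⌋₊ ≤ N := Nat.floor_le_of_le hN
    omega
  rw [← Finset.sum_subset hsub]
  · apply Finset.sum_congr rfl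
    intro n hn
    rw [Finset.mem_Icc] at hn
    have h1 : (n : ℝ) ≤ 1 / y := (Nat.le_floor_iff (by positivity)).mp hn.2
    have h2 : (n : ℝ) * y ≤ 1 := by
      rwa [le_div_iff₀ hy] at h1
    have h3 : max (1 - (n : ℝ) * y) 0 = 1 - n * y := max_eq_left (by linarith)
    rw [h3]; push_cast; rfl
  · intro n _ hn
    rw [Finset.mem_Icc, not_and_or] at hn
    rcases hn with h | h
    · have : n = 0 := by omega
      rw [this, ha]; simp
    · have h1 : ⌊1 / y⌋₊ < n := by omega
      have h2 : 1 / y < n := Nat.lt_of_floor_lt h1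
      have h3 : 1 < (n : ℝ) * y := by rwa [div_lt_iff₀ hy] at h2
      rw [max_eq_right (by linarith)]
      simp

lemma perF_eq_tsum {a : ℕ → ℂ} (ha : a 0 = 0) {y : ℝ} (hy : 0 < y) :
    perF a y = ∑' n : ℕ, a n * hat (n * y) := by
  obtain ⟨N, hN⟩ := exists_nat_ge (1 / y)
  rw [perF_eq_sum ha hy hN, tsum_eq_sum (s := Finset.range (N + 1))]
  · apply Finset.sum_congr rfl
    intro n _
    rcases Nat.eq_zero_or_pos n with rfl | hn
    · rw [ha]; simp
    · rw [hat_eq_max (by positivity)]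
  · intro n hn
    rw [Finset.mem_range, not_lt] at hn
    have h0 : 1 / y < n := lt_of_le_of_lt hN (by exact_mod_cast hn)
    have h3 : 1 < (n : ℝ) * y := by rwa [div_lt_iff₀ hy] at h0
    rw [hat_of_gt h3, mul_zero]

lemma perF_continuousAt {a : ℕ → ℂ} (ha : a 0 = 0) {y : ℝ} (hy : 0 < y) :
    ContinuousAt (perF a) y := by
  obtain ⟨N, hN⟩ := exists_nat_ge (1 / (y / 2))
  have hmem : Ioi (y / 2) ∈ 𝓝 y := Ioi_mem_nhds (by linarith)
  have heq : (fun z : ℝ => ∑ n ∈ Finset.range (N + 1), a n * ((max (1 - n * z) 0 : ℝ) : ℂ))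
      =ᶠ[𝓝 y] perF a := by
    filter_upwards [hmem] with z hz
    have hz' : y / 2 < z := hz
    symm
    apply perF_eq_sum ha (by linarith)
    refine le_trans ?_ hN
    exact one_div_le_one_div_of_le (by linarith) hz'.le
  refine ContinuousAt.congr ?_ heq
  apply Continuous.continuousAt
  fun_prop

theorem perF_mellin {a : ℕ → ℂ} (ha : a 0 = 0) {s : ℂ} (hs : 1 < s.re)
    (hsum0 : LSeriesSummable a s) :
    HasMellin (perF a) s (LSeries a s / (s * (s + 1))) := by
  have hs0 : 0 < s.re := by linarith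
  set F : ℕ → ℝ → ℂ := fun n y => (y : ℂ) ^ (s - 1) • (a n * hat (n * y)) with hF
  have hconv : ∀ n : ℕ, 0 < n → MellinConvergent (fun y => hat (n * y)) s := by
    intro n hn
    have hn' : (0 : ℝ) < n := by exact_mod_cast hn
    exact (MellinConvergent.comp_mul_left hn').mpr (hat_mellin hs0).1
  have hFint : ∀ n, Integrable (F n) (volume.restrict (Ioi 0)) := by
    intro n
    rcases Nat.eq_zero_or_pos n with rfl | hn
    · have : F 0 = fun _ => 0 := by
        funext y
        simp [hF, ha]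
      rw [this]
      exact integrable_zero _ _ _
    · have h1 := (hconv n hn).const_smul (a n)
      simpa [hF, MellinConvergent, IntegrableOn, smul_eq_mul] using h1
  set M : ℝ := ∫ y in Ioi (0 : ℝ), ‖(y : ℂ) ^ (s - 1) • hat y‖ with hM
  have hnorm : ∀ n, ∫ y in Ioi (0 : ℝ), ‖F n y‖ = ‖LSeries.term a s n‖ * M := by
    intro n
    rcases Nat.eq_zero_or_pos n with rfl | hn
    · simp [hF, ha]
    · have hn' : (0 : ℝ) < n := by exact_mod_cast hn
      have e1 : ∀ y : ℝ, ‖F n y‖ = ‖a n‖ * ‖(y : ℂ) ^ (s - 1) • hat (n * y)‖ := by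
        intro y
        simp only [hF, smul_eq_mul, norm_mul]
        ring
      simp_rw [e1]
      rw [integral_const_mul, hat_norm_int s hn, LSeries.norm_term_eq, if_neg hn.ne',
        Real.rpow_neg hn'.le]
      ring
  have hsum : Summable fun n => ∫ y in Ioi (0 : ℝ), ‖F n y‖ := by
    simp_rw [hnorm]
    exact (hsum0.norm).mul_right M
  have key := hasSum_integral_of_summable_integral_norm hFint hsum
  have hval : ∀ n, ∫ y in Ioi (0 : ℝ), F n y =
      LSeries.term a s n * (1 / (s * (s + 1))) := by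
    intro n
    rcases Nat.eq_zero_or_pos n with rfl | hn
    · simp [hF, ha]
    · have hn' : (0 : ℝ) < n := by exact_mod_cast hn
      have e1 : ∫ y in Ioi (0 : ℝ), F n y = a n * mellin (fun y => hat (n * y)) s := by
        rw [mellin, ← integral_const_mul]
        apply setIntegral_congr_fun measurableSet_Ioi
        intro y _
        simp only [hF, smul_eq_mul]
        ring
      rw [e1, mellin_comp_mul_left hat s hn', (hat_mellin hs0).2, LSeries.term_of_ne_zero hn.ne',
        smul_eq_mul, cpow_neg]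
      push_cast
      ring
  have htsum : (fun y : ℝ => ∑' n, F n y) =ᵐ[volume.restrict (Ioi 0)]
      fun y : ℝ => (y : ℂ) ^ (s - 1) • perF a y := by
    filter_upwards [ae_restrict_mem measurableSet_Ioi] with y hy
    rw [perF_eq_tsum ha hy]
    simp only [hF, smul_eq_mul]
    rw [tsum_mul_left]
  rw [integral_congr_ae htsum] at key
  simp_rw [hval] at key
  have hL := hsum0.LSeriesHasSum
  have hL2 := (show HasSum (LSeries.term a s) _ from hL).mul_right
    (1 / (s * (s + 1)))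
  constructor
  · -- convergence
    have hmeas : AEStronglyMeasurable (fun y : ℝ => (y : ℂ) ^ (s - 1) • perF a y)
        (volume.restrict (Ioi 0)) := by
      apply ContinuousOn.aestronglyMeasurable _ measurableSet_Ioi
      intro y hy
      have hy' : 0 < y := hy
      apply ContinuousAt.continuousWithinAt
      simp only [smul_eq_mul]
      exact ContinuousAt.fun_mul (continuousAt_ofReal_cpow_const y (s - 1) (Or.inr hy'.ne'))
        (perF_continuousAt ha hy')
    refine ⟨hmeas, ?_⟩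
    have e1 : ∫⁻ y in Ioi (0 : ℝ), ‖(y : ℂ) ^ (s - 1) • perF a y‖ₑ ≤
        ∫⁻ y in Ioi (0 : ℝ), ∑' n, ‖F n y‖ₑ := by
      apply lintegral_mono_ae
      filter_upwards [htsum] with y hy
      rw [← hy]
      exact enorm_tsum_le_tsum_enorm
    have e2 : ∫⁻ y in Ioi (0 : ℝ), ∑' n, ‖F n y‖ₑ =
        ∑' n, ENNReal.ofReal (∫ y in Ioi (0 : ℝ), ‖F n y‖) := by
      rw [lintegral_tsum (fun n => (hFint n).1.enorm)]
      congr 1
      funext n
      rw [ofReal_integral_norm_eq_lintegral_enorm (hFint n)]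
    show HasFiniteIntegral _ _
    rw [hasFiniteIntegral_iff_enorm]
    refine lt_of_le_of_lt e1 ?_
    rw [e2]
    exact hsum.tsum_ofReal_lt_top
  · have := hL2.unique key
    rw [mellin]
    rw [← this]
    ring

/-- the majorant, integrable. -/
lemma integrable_maj : Integrable (fun t : ℝ => (1 + |t|) ^ (-(3 / 2) : ℝ)) := by
  have h := integrable_one_add_norm (E := ℝ) (μ := volume) (r := 3 / 2) (by simp; norm_num)
  simpa [Real.norm_eq_abs] using h

lemma kernel_bound {c : ℝ} (hc : 1 < c) (t : ℝ) :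
    (1 + |t|) ^ (2 : ℝ) / 4 ≤ ‖((c : ℂ) + t * I) * ((c : ℂ) + t * I + 1)‖ := by
  have h1 : (1 + |t|) / 2 ≤ ‖(c : ℂ) + t * I‖ := by
    have e1 := Complex.abs_re_le_norm ((c : ℂ) + t * I)
    have e2 := Complex.abs_im_le_norm ((c : ℂ) + t * I)
    simp at e1 e2
    have e3 : c ≤ |c| := le_abs_self c
    linarith
  have h2 : (1 + |t|) / 2 ≤ ‖(c : ℂ) + t * I + 1‖ := by
    have e1 := Complex.abs_re_le_norm ((c : ℂ) + t * I + 1)
    have e2 := Complex.abs_im_le_norm ((c : ℂ) + t * I + 1)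
    simp at e1 e2
    have e3 : c + 1 ≤ |c + 1| := le_abs_self _
    linarith
  rw [norm_mul]
  have h0 : 0 ≤ (1 + |t|) / 2 := by positivity
  calc (1 + |t|) ^ (2 : ℝ) / 4 = ((1 + |t|) / 2) * ((1 + |t|) / 2) := by
        rw [Real.rpow_two]; ring
    _ ≤ _ := mul_le_mul h1 h2 h0 (h0.trans h1)

lemma integrand_bound {a : ℕ → ℂ} {c K : ℝ} (hc : 1 < c)
    (hK : ∀ t : ℝ, ‖LSeries a (c + t * I)‖ ≤ K * (1 + |t|) ^ (1 / 2 : ℝ)) (t : ℝ) :
    ‖LSeries a (c + t * I) / (((c : ℂ) + t * I) * ((c : ℂ) + t * I + 1))‖ ≤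
      4 * K * (1 + |t|) ^ (-(3 / 2) : ℝ) := by
  have hp : (0 : ℝ) < 1 + |t| := by positivity
  have h1 := kernel_bound hc t
  have h2 : (0 : ℝ) < (1 + |t|) ^ (2 : ℝ) / 4 := by positivity
  rw [norm_div]
  calc ‖LSeries a (c + t * I)‖ / ‖((c : ℂ) + t * I) * ((c : ℂ) + t * I + 1)‖
      ≤ (K * (1 + |t|) ^ (1 / 2 : ℝ)) / ((1 + |t|) ^ (2 : ℝ) / 4) :=
        div_le_div₀ ((norm_nonneg _).trans (hK t)) (hK t) h2 h1
    _ = 4 * K * ((1 + |t|) ^ (1 / 2 : ℝ) / (1 + |t|) ^ (2 : ℝ)) := by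
        field_simp
    _ = 4 * K * (1 + |t|) ^ (-(3 / 2) : ℝ) := by
        rw [← Real.rpow_sub hp]; norm_num

lemma per_main {a : ℕ → ℂ} (ha : a 0 = 0) {c K : ℝ} (hc : 1 < c)
    (hsum : LSeriesSummable a c)
    (hK : ∀ t : ℝ, ‖LSeries a (c + t * I)‖ ≤ K * (1 + |t|) ^ (1 / 2 : ℝ)) {x : ℝ} (hx : 1 ≤ x) :
    ‖perF a (1 / x)‖ ≤ (4 * ∫ t : ℝ, (1 + |t|) ^ (-(3 / 2) : ℝ)) * K * x ^ c := by
  have hx0 : 0 < x := by linarith
  have hy0 : 0 < 1 / x := by positivity
  have hre : ∀ t : ℝ, ((c : ℂ) + t * I).re = c := fun t => by simp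
  have hsumt : ∀ t : ℝ, LSeriesSummable a (c + t * I) := by
    intro t
    refine hsum.of_re_le_re ?_
    rw [hre t, ofReal_re]
  have hM : ∀ t : ℝ, mellin (perF a) (c + t * I) =
      LSeries a (c + t * I) / (((c : ℂ) + t * I) * ((c : ℂ) + t * I + 1)) := fun t =>
    (perF_mellin ha (by rw [hre t]; exact hc) (hsumt t)).2
  have hconv : MellinConvergent (perF a) (c : ℂ) :=
    (perF_mellin ha (by rw [ofReal_re]; exact hc) hsum).1
  have hcontL : Continuous fun t : ℝ => LSeries a (c + t * I) := by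
    unfold LSeries
    refine continuous_tsum (u := fun n => ‖LSeries.term a c n‖) ?_ hsum.norm ?_
    · intro n
      rcases Nat.eq_zero_or_pos n with rfl | hn
      · simp only [LSeries.term_zero]
        exact continuous_const
      · simp only [LSeries.term_of_ne_zero hn.ne']
        have hn0 : (n : ℂ) ≠ 0 := by exact_mod_cast hn.ne'
        refine Continuous.div continuous_const ?_ ?_
        · refine Continuous.const_cpow (by fun_prop) (Or.inl hn0)
        · intro t
          rw [cpow_ne_zero_iff_of_exponent_ne_zero]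
          · exact hn0
          · intro h
            have := congrArg Complex.re h
            rw [hre t] at this
            simp at this
            linarith
    · intro n t
      rw [LSeries.norm_term_eq, LSeries.norm_term_eq, hre t, ofReal_re]
  have hcontG : Continuous fun t : ℝ =>
      LSeries a (c + t * I) / (((c : ℂ) + t * I) * ((c : ℂ) + t * I + 1)) := by
    refine hcontL.div (by fun_prop) ?_
    intro t h
    have h1 := kernel_bound hc t
    rw [h, norm_zero] at h1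
    have h2 : (0 : ℝ) < (1 + |t|) ^ (2 : ℝ) / 4 := by positivity
    linarith
  have hint : Integrable fun t : ℝ =>
      LSeries a (c + t * I) / (((c : ℂ) + t * I) * ((c : ℂ) + t * I + 1)) :=
    (integrable_maj.const_mul (4 * K)).mono' hcontG.aestronglyMeasurable
      (Filter.Eventually.of_forall fun t => integrand_bound hc hK t)
  have hvert : VerticalIntegrable (mellin (perF a)) c volume := by
    unfold VerticalIntegrable
    simp_rw [hM]
    exact hint
  have hinv := mellinInv_mellin_eq c (perF a) hy0 hconv hvert (perF_continuousAt ha hy0)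
  rw [← hinv, mellinInv, norm_smul]
  have e2 : ‖(1 / (2 * Real.pi) : ℝ)‖ ≤ 1 := by
    rw [Real.norm_eq_abs, abs_of_pos (by positivity)]
    have := Real.pi_gt_three
    rw [div_le_one (by linarith)]
    linarith
  have e1 : ‖∫ t : ℝ, ((1 / x : ℝ) : ℂ) ^ (-(c + t * I : ℂ)) • mellin (perF a) (c + t * I)‖ ≤
      (4 * ∫ t : ℝ, (1 + |t|) ^ (-(3 / 2) : ℝ)) * K * x ^ c := by
    have e3 : (4 * ∫ t : ℝ, (1 + |t|) ^ (-(3 / 2) : ℝ)) * K * x ^ c =
        ∫ t : ℝ, (4 * K * x ^ c) * (1 + |t|) ^ (-(3 / 2) : ℝ) := by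
      rw [integral_const_mul]; ring
    rw [e3]
    refine norm_integral_le_of_norm_le (integrable_maj.const_mul _) ?_
    refine Filter.Eventually.of_forall fun t => ?_
    rw [norm_smul, hM t, norm_cpow_eq_rpow_re_of_pos hy0]
    have e4 : (1 / x) ^ (-(c + t * I : ℂ)).re = x ^ c := by
      rw [neg_re, hre t, one_div, Real.inv_rpow hx0.le, Real.rpow_neg hx0.le, inv_inv]
    rw [e4]
    have e5 := integrand_bound hc hK t
    have e6 : (0 : ℝ) ≤ x ^ c := (Real.rpow_pos_of_pos hx0 _).le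
    calc x ^ c * ‖LSeries a (c + t * I) / (((c : ℂ) + t * I) * ((c : ℂ) + t * I + 1))‖
        ≤ x ^ c * (4 * K * (1 + |t|) ^ (-(3 / 2) : ℝ)) := mul_le_mul_of_nonneg_left e5 e6
      _ = _ := by ring
  calc ‖(1 / (2 * Real.pi) : ℝ)‖ *
        ‖∫ t : ℝ, ((1 / x : ℝ) : ℂ) ^ (-(c + t * I : ℂ)) • mellin (perF a) (c + t * I)‖
      ≤ 1 * ((4 * ∫ t : ℝ, (1 + |t|) ^ (-(3 / 2) : ℝ)) * K * x ^ c) :=
        mul_le_mul e2 e1 (norm_nonneg _) zero_le_one
    _ = _ := one_mul _

/-- PER: Perron's formula with the kernel `1/(s(s+1))`, as an inequality. -/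
theorem per : PerStatement := by
  have hJ : 0 ≤ ∫ t : ℝ, (1 + |t|) ^ (-(3 / 2) : ℝ) :=
    integral_nonneg fun t => by positivity
  refine ⟨(4 * ∫ t : ℝ, (1 + |t|) ^ (-(3 / 2) : ℝ)) + 1, by positivity, ?_⟩
  intro a c K hc _ hK0 hsum hK x hx
  have hx0 : 0 < x := by linarith
  obtain ⟨b, hb⟩ : ∃ b : ℕ → ℂ, b = fun n => if n = 0 then 0 else a n := ⟨_, rfl⟩
  have hb0 : b 0 = 0 := by rw [hb]; simp
  have hbn : ∀ n : ℕ, n ≠ 0 → a n = b n := by
    intro n hn; rw [hb]; simp [hn]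
  have hLS : ∀ s : ℂ, LSeries a s = LSeries b s := fun s => LSeries_congr (fun {n} hn => hbn n hn) s
  have hsb : LSeriesSummable b c :=
    (LSeriesSummable_congr (c : ℂ) (fun {n} hn => hbn n hn)).mp hsum
  have hKb : ∀ t : ℝ, ‖LSeries b (c + t * I)‖ ≤ K * (1 + |t|) ^ (1 / 2 : ℝ) := by
    intro t; rw [← hLS]; exact hK t
  have hmain := per_main hb0 hc hsb hKb hx
  have heq : ∑ n ∈ Finset.Icc 1 ⌊x⌋₊, a n * (1 - (n : ℂ) / x) = perF b (1 / x) := by
    unfold perF
    rw [one_div_one_div]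
    apply Finset.sum_congr rfl
    intro n hn
    have hn1 := (Finset.mem_Icc.1 hn).1
    rw [hbn n (by omega)]
    push_cast
    ring
  rw [heq]
  refine hmain.trans ?_
  have h1 : 0 ≤ K * x ^ c := mul_nonneg hK0 (Real.rpow_pos_of_pos hx0 _).le
  nlinarith

end Pool.Agent.Lib.MP_6bc78b_nt.SW
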